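import Mathlib

/-! Compatible monomial ASLs on the lattice of poset ideals of a disjoint union of chains. -/

namespace Pool.Agent.Results.MP_9c3df6_al.ChainsUnique

open MvPolynomial

/-! ### Definitions -/

/-- Index set of the standard monomials: multisets of pairwise comparable elements. -/
def StdIndex (L : Type*) [PartialOrder L] : Type _ :=
  {M : Multiset L // ∀ a ∈ M, ∀ b ∈ M, a ≤ b ∨ b ≤ a}

/-- The standard monomial with index `M`. -/
def stdMonomial {L R : Type*} [PartialOrder L] [CommRing R] (φ : L → R) (M : StdIndex L) : R :=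
  (M.1.map φ).prod

/-- `R` is an algebra with straightening laws on the poset `L` over `K` via `φ` (for a graded
algebra `R` generated by homogeneous elements `φ α` of positive degree). -/
structure IsASL (K : Type*) [Field K] {L R : Type*} [PartialOrder L] [CommRing R] [Algebra K R]
    (φ : L → R) : Prop where
  injective : Function.Injective φ
  linearIndependent : LinearIndependent K (stdMonomial φ)
  span : Submodule.span K (Set.range (stdMonomial φ)) = ⊤
  straightening : ∀ α β : L, ¬ α ≤ β → ¬ β ≤ α → ∀ c : StdIndex L →₀ K,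
    φ α * φ β = c.sum (fun M r => r • stdMonomial φ M) →
      ∀ M ∈ c.support, ∃ γ ∈ M.1, (∀ δ ∈ M.1, γ ≤ δ) ∧ γ ≤ α ∧ γ ≤ β

variable {P V : Type*} [PartialOrder P]

/-- The element `w_I t` of `K[x_v, t]`, where `t` is the variable `none`. -/
noncomputable def gen (K : Type*) [Field K] (w : LowerSet P → V →₀ ℕ) (I : LowerSet P) :
    MvPolynomial (Option V) K :=
  monomial ((w I).mapDomain some + Finsupp.single none 1) 1

/-- The ring `K[Ω]` generated by all `w_I t`. -/
noncomputable def ringOf (K : Type*) [Field K] (w : LowerSet P → V →₀ ℕ) :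
    Subalgebra K (MvPolynomial (Option V) K) :=
  Algebra.adjoin K (Set.range (gen K w))

/-- The map `φ` from poset ideals to `K[Ω]`. -/
noncomputable def toRing (K : Type*) [Field K] (w : LowerSet P → V →₀ ℕ) (I : LowerSet P) :
    ringOf K w :=
  ⟨gen K w I, Algebra.subset_adjoin ⟨I, rfl⟩⟩

/-- `K[Ω]` is a compatible ASL on the lattice of poset ideals of `P`. -/
structure IsCompatibleASL (K : Type*) [Field K] (w : LowerSet P → V →₀ ℕ) : Prop where
  isASL : IsASL K (toRing K w)
  compatible : ∀ I I' : LowerSet P, ¬ I ≤ I' → ¬ I' ≤ I → ∃ J J' : LowerSet P,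
    J ≤ I ⊓ I' ∧ I ⊔ I' ≤ J' ∧ toRing K w I * toRing K w I' = toRing K w J * toRing K w J'

/-- `φ(I) φ(I') = φ(J) φ(J')` is a relation of `K[Ω]` whose right side is standard. -/
def IsRelation (K : Type*) [Field K] (w : LowerSet P → V →₀ ℕ) (I I' J J' : LowerSet P) : Prop :=
  J ≤ J' ∧ toRing K w I * toRing K w I' = toRing K w J * toRing K w J'

/-- Two families of monomials have the same straightening relations. -/
def Identified (K : Type*) [Field K] {V' : Type*} (w : LowerSet P → V →₀ ℕ)
    (w' : LowerSet P → V' →₀ ℕ) : Prop :=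
  ∀ I I' : LowerSet P, ¬ I ≤ I' → ¬ I' ≤ I → ∀ J J' : LowerSet P,
    IsRelation K w I I' J J' ↔ IsRelation K w' I I' J J'

/-- The monomials `x(I)` of the order polytope of `P`. -/
noncomputable def orderMonomial [Fintype P] (I : LowerSet P) : P →₀ ℕ :=
  Finsupp.equivFunOnFinite.symm fun p => open Classical in if p ∈ I then 1 else 0

/-- `P` is a disjoint union of chains: comparability is transitive. -/
def IsUnionOfChains (P : Type*) [PartialOrder P] : Prop :=
  ∀ x y z : P, (x ≤ y ∨ y ≤ x) → (y ≤ z ∨ z ≤ y) → (x ≤ z ∨ z ≤ x)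

/-! ### Order theory -/

theorem eq_of_inflationary {α : Type*} [PartialOrder α] [Finite α] {g : α → α}
    (hg : ∀ x, x ≤ g x) (hinj : Function.Injective g) : ∀ x, g x = x := by
  intro x
  induction x using WellFoundedGT.induction with
  | ind x ih =>
    by_contra hne
    have hlt : x < g x := lt_of_le_of_ne (hg x) (Ne.symm hne)
    exact hne (hinj (ih (g x) hlt))

variable {L A : Type*} [DistribLattice L] [BoundedOrder L] [Finite L] [AddCommMonoid A] [IsCancelAdd A]

theorem split {W : L → A} (hinj : Function.Injective W)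
    (hstd : ∀ a b c d : L, a ≤ b → c ≤ d → W a + W b = W c + W d → a = c ∧ b = d)
    (hcomp : ∀ u v : L, ¬ u ≤ v → ¬ v ≤ u → ∃ J J', J ≤ u ⊓ v ∧ u ⊔ v ≤ J' ∧
      W u + W v = W J + W J') {e e' : L} (he : IsCompl e e') (u : L) :
    W u + W ⊥ = W (u ⊓ e) + W (u ⊓ e') := by
  have hdec : ∀ x : L, x = (x ⊓ e) ⊔ (x ⊓ e') := by
    intro x
    rw [← inf_sup_left, he.sup_eq_top, inf_top_eq]
  -- the element above
  have hJ : ∀ a b : L, a ≤ e → b ≤ e' → ∃ J', a ⊔ b ≤ J' ∧ W a + W b = W J' + W ⊥ := by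
    intro a b ha hb
    by_cases h1 : a ≤ b
    · have : a = ⊥ := by
        rw [← le_bot_iff, ← he.inf_eq_bot]
        exact le_inf ha (h1.trans hb)
      refine ⟨b, by rw [this, bot_sup_eq], by rw [this, add_comm]⟩
    by_cases h2 : b ≤ a
    · have : b = ⊥ := by
        rw [← le_bot_iff, ← he.inf_eq_bot]
        exact le_inf (h2.trans ha) hb
      exact ⟨a, by rw [this, sup_bot_eq], by rw [this]⟩
    obtain ⟨J, J', hJ1, hJ2, hJ3⟩ := hcomp a b h1 h2
    have : J = ⊥ := by
      rw [← le_bot_iff, ← he.inf_eq_bot]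
      exact hJ1.trans (inf_le_inf ha hb)
    rw [this, add_comm (W ⊥)] at hJ3
    exact ⟨J', hJ2, hJ3⟩
  choose! j hj1 hj2 using hJ
  -- first step
  have hstep1 : ∀ b : L, b ≤ e' → W e + W b = W (e ⊔ b) + W ⊥ := by
    have hfix : ∀ b : Set.Iic e', (⟨j e b.1 ⊓ e', inf_le_right⟩ : Set.Iic e') = b := by
      apply eq_of_inflationary (g := fun b : Set.Iic e' =>
        (⟨j e b.1 ⊓ e', inf_le_right⟩ : Set.Iic e'))
      · intro b
        have h1 := hj1 e b.1 le_rfl b.2
        exact Subtype.mk_le_mk.2 (le_inf (le_sup_right.trans h1) b.2)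
      · intro b c hbc
        have h1 := hj1 e b.1 le_rfl b.2
        have h2 := hj1 e c.1 le_rfl c.2
        have h3 : j e b.1 ⊓ e' = j e c.1 ⊓ e' := congrArg Subtype.val hbc
        have h4 : j e b.1 = j e c.1 := by
          rw [hdec (j e b.1), hdec (j e c.1), h3, inf_eq_right.2 (le_sup_left.trans h1),
            inf_eq_right.2 (le_sup_left.trans h2)]
        have h5 := hj2 e b.1 le_rfl b.2
        have h6 := hj2 e c.1 le_rfl c.2
        rw [h4, ← h6] at h5
        exact Subtype.ext (hinj (add_left_cancel h5))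
    intro b hb
    have h1 : j e b ⊓ e' = b := congrArg Subtype.val (hfix ⟨b, hb⟩)
    have h2 := hj1 e b le_rfl hb
    have h3 : j e b = e ⊔ b := by
      rw [hdec (j e b), h1, inf_eq_right.2 (le_sup_left.trans h2)]
    rw [hj2 e b le_rfl hb, h3]
  -- second step
  have hfix : ∀ x : L, j (x ⊓ e) (x ⊓ e') = x := by
    apply eq_of_inflationary (g := fun x : L => j (x ⊓ e) (x ⊓ e'))
    · intro x
      have := hj1 (x ⊓ e) (x ⊓ e') inf_le_right inf_le_right
      rwa [← hdec x] at this
    · intro x y hxy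
      dsimp only at hxy
      have h1 := hj2 (x ⊓ e) (x ⊓ e') inf_le_right inf_le_right
      have h2 := hj2 (y ⊓ e) (y ⊓ e') inf_le_right inf_le_right
      rw [hxy, ← h2] at h1
      have h3 := hstep1 (x ⊓ e') inf_le_right
      have h4 := hstep1 (y ⊓ e') inf_le_right
      have h5 : W (x ⊓ e) + W (e ⊔ x ⊓ e') = W (y ⊓ e) + W (e ⊔ y ⊓ e') := by
        apply add_right_cancel (b := W ⊥)
        rw [add_assoc, ← h3, add_assoc, ← h4, add_left_comm, h1, add_left_comm]
      obtain ⟨h6, h7⟩ := hstd _ _ _ _ (inf_le_right.trans le_sup_left)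
        (inf_le_right.trans le_sup_left) h5
      have h8 : x ⊓ e' = y ⊓ e' := by
        have h9 := congrArg (fun z => z ⊓ e') h7
        simp only [inf_sup_right, he.inf_eq_bot, bot_sup_eq] at h9
        rwa [inf_assoc, inf_idem, inf_assoc, inf_idem] at h9
      rw [hdec x, hdec y, h6, h8]
  have h1 := hj2 (u ⊓ e) (u ⊓ e') inf_le_right inf_le_right
  rw [hfix u] at h1
  exact h1.symm

/-- `W` is modular below `e`. -/
def ModularOn (W : L → A) (e : L) : Prop :=
  ∀ u v : L, u ≤ e → v ≤ e → W u + W v = W (u ⊓ v) + W (u ⊔ v)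

theorem modularOn_sup {W : L → A} (hinj : Function.Injective W)
    (hstd : ∀ a b c d : L, a ≤ b → c ≤ d → W a + W b = W c + W d → a = c ∧ b = d)
    (hcomp : ∀ u v : L, ¬ u ≤ v → ¬ v ≤ u → ∃ J J', J ≤ u ⊓ v ∧ u ⊔ v ≤ J' ∧
      W u + W v = W J + W J') {e₁ e₁' e₂ : L} (he : IsCompl e₁ e₁') (he₂ : e₂ ≤ e₁')
    (h₁ : ModularOn W e₁) (h₂ : ModularOn W e₂) : ModularOn W (e₁ ⊔ e₂) := by
  have hs : ∀ u : L, u ≤ e₁ ⊔ e₂ → W u + W ⊥ = W (u ⊓ e₁) + W (u ⊓ e₂) := by
    intro u hu
    have h3 : u ⊓ e₁' = u ⊓ e₂ := by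
      apply le_antisymm
      · refine le_inf inf_le_left ?_
        calc u ⊓ e₁' ≤ (e₁ ⊔ e₂) ⊓ e₁' := inf_le_inf_right _ hu
          _ = e₂ ⊓ e₁' := by rw [inf_sup_right, he.inf_eq_bot, bot_sup_eq]
          _ ≤ e₂ := inf_le_left
      · exact inf_le_inf_left _ he₂
    rw [← h3]
    exact split hinj hstd hcomp he u
  intro u v hu hv
  have e1 := hs u hu
  have e2 := hs v hv
  have e3 := hs (u ⊓ v) (inf_le_left.trans hu)
  have e4 := hs (u ⊔ v) (sup_le hu hv)
  have m1 := h₁ (u ⊓ e₁) (v ⊓ e₁) inf_le_right inf_le_right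
  have m2 := h₂ (u ⊓ e₂) (v ⊓ e₂) inf_le_right inf_le_right
  rw [← inf_inf_distrib_right, ← inf_sup_right] at m1 m2
  apply add_right_cancel (b := W ⊥ + W ⊥)
  calc W u + W v + (W ⊥ + W ⊥) = (W u + W ⊥) + (W v + W ⊥) := by abel
    _ = (W (u ⊓ e₁) + W (u ⊓ e₂)) + (W (v ⊓ e₁) + W (v ⊓ e₂)) := by rw [e1, e2]
    _ = (W (u ⊓ e₁) + W (v ⊓ e₁)) + (W (u ⊓ e₂) + W (v ⊓ e₂)) := by abel
    _ = (W (u ⊓ v ⊓ e₁) + W ((u ⊔ v) ⊓ e₁)) + (W (u ⊓ v ⊓ e₂) + W ((u ⊔ v) ⊓ e₂)) := by
        rw [m1, m2]
    _ = (W (u ⊓ v ⊓ e₁) + W (u ⊓ v ⊓ e₂)) + (W ((u ⊔ v) ⊓ e₁) + W ((u ⊔ v) ⊓ e₂)) := by abel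
    _ = (W (u ⊓ v) + W ⊥) + (W (u ⊔ v) + W ⊥) := by rw [e3, e4]
    _ = W (u ⊓ v) + W (u ⊔ v) + (W ⊥ + W ⊥) := by abel

/-! ### Disjoint unions of chains -/

instance [Finite P] : Finite (LowerSet P) :=
  Finite.of_injective (fun s : LowerSet P => (s : Set P)) SetLike.coe_injective

/-- The union of the components meeting `S`. -/
def comps (hP : IsUnionOfChains P) (S : Set P) : LowerSet P where
  carrier := {y | ∃ x ∈ S, x ≤ y ∨ y ≤ x}
  lower' := by
    rintro a b hab ⟨x, hx, h⟩
    exact ⟨x, hx, hP x a b h (Or.inr hab)⟩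

/-- The complement of the union of the components meeting `S`. -/
def compsCompl (hP : IsUnionOfChains P) (S : Set P) : LowerSet P where
  carrier := {y | ¬ ∃ x ∈ S, x ≤ y ∨ y ≤ x}
  lower' := by
    rintro a b hab h ⟨x, hx, h'⟩
    exact h ⟨x, hx, hP x b a h' (Or.inl hab)⟩

theorem isCompl_comps (hP : IsUnionOfChains P) (S : Set P) :
    IsCompl (comps hP S) (compsCompl hP S) := by
  constructor
  · rw [disjoint_iff_inf_le]
    rintro x ⟨h1, h2⟩
    exact h2 h1
  · rw [codisjoint_iff_le_sup]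
    intro x _
    by_cases h : ∃ y ∈ S, y ≤ x ∨ x ≤ y
    · exact Or.inl h
    · exact Or.inr h

theorem modularOn_all [Finite P] (hP : IsUnionOfChains P) {W : LowerSet P → A}
    (hinj : Function.Injective W)
    (hstd : ∀ a b c d : LowerSet P, a ≤ b → c ≤ d → W a + W b = W c + W d → a = c ∧ b = d)
    (hcomp : ∀ u v : LowerSet P, ¬ u ≤ v → ¬ v ≤ u → ∃ J J', J ≤ u ⊓ v ∧ u ⊔ v ≤ J' ∧
      W u + W v = W J + W J') (u v : LowerSet P) : W u + W v = W (u ⊓ v) + W (u ⊔ v) := by
  classical
  have := Fintype.ofFinite P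
  have hchain : ∀ x : P, ModularOn W (comps hP {x}) := by
    intro x u v hu hv
    have : u ≤ v ∨ v ≤ u := by
      by_contra hcon
      push Not at hcon
      obtain ⟨h1, h2⟩ := hcon
      obtain ⟨a, ha, ha'⟩ := Set.not_subset.1 h1
      obtain ⟨b, hb, hb'⟩ := Set.not_subset.1 h2
      obtain ⟨_, rfl, hxa⟩ := hu ha
      obtain ⟨_, rfl, hxb⟩ := hv hb
      rcases hP _ _ _ hxa.symm hxb with h | h
      · exact ha' (v.lower h hb)
      · exact hb' (u.lower h ha)
    rcases this with h | h
    · rw [inf_eq_left.2 h, sup_eq_right.2 h]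
    · rw [inf_eq_right.2 h, sup_eq_left.2 h, add_comm]
  have hall : ∀ S : Finset P, ModularOn W (comps hP (S : Set P)) := by
    intro S
    induction S using Finset.induction_on with
    | empty =>
      intro u v hu hv
      have hb : ∀ z : LowerSet P, z ≤ comps hP ((∅ : Finset P) : Set P) → z = ⊥ := by
        intro z hz
        rw [eq_bot_iff]
        intro a ha
        obtain ⟨x, hx, _⟩ := hz ha
        simp at hx
      rw [hb u hu, hb v hv, inf_idem, sup_idem]
    | insert x S hx ih =>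
      by_cases h : ∃ y ∈ S, y ≤ x ∨ x ≤ y
      · have : comps hP ((insert x S : Finset P) : Set P) = comps hP (S : Set P) := by
          apply le_antisymm
          · rintro a ⟨z, hz, hza⟩
            rw [Finset.coe_insert, Set.mem_insert_iff] at hz
            rcases hz with rfl | hz
            · obtain ⟨y, hy, hyx⟩ := h
              exact ⟨y, hy, hP _ _ _ hyx hza⟩
            · exact ⟨z, hz, hza⟩
          · rintro a ⟨z, hz, hza⟩
            exact ⟨z, by rw [Finset.coe_insert]; exact Or.inr hz, hza⟩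
        rw [this]
        exact ih
      · have h1 : comps hP ((insert x S : Finset P) : Set P) =
            comps hP {x} ⊔ comps hP (S : Set P) := by
          apply le_antisymm
          · rintro a ⟨z, hz, hza⟩
            rw [Finset.coe_insert, Set.mem_insert_iff] at hz
            rcases hz with rfl | hz
            · exact Or.inl ⟨z, rfl, hza⟩
            · exact Or.inr ⟨z, hz, hza⟩
          · refine sup_le ?_ ?_
            · rintro a ⟨z, rfl, hza⟩
              exact ⟨z, by rw [Finset.coe_insert]; exact Or.inl rfl, hza⟩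
            · rintro a ⟨z, hz, hza⟩
              exact ⟨z, by rw [Finset.coe_insert]; exact Or.inr hz, hza⟩
        rw [h1]
        refine modularOn_sup hinj hstd hcomp (isCompl_comps hP {x}) ?_ (hchain x) ih
        rintro a ⟨z, hz, hza⟩ ⟨_, rfl, hxa⟩
        exact h ⟨z, hz, hP _ _ _ hza hxa.symm⟩
  apply hall Finset.univ u v
  · intro a _
    exact ⟨a, by simp, Or.inl le_rfl⟩
  · intro a _
    exact ⟨a, by simp, Or.inl le_rfl⟩

/-! ### The rings -/

variable {K : Type*} [Field K]

theorem toRing_mul_eq_iff (w : LowerSet P → V →₀ ℕ) (I I' J J' : LowerSet P) :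
    toRing K w I * toRing K w I' = toRing K w J * toRing K w J' ↔ w I + w I' = w J + w J' := by
  have h1 : ∀ I I' : LowerSet P, gen K w I * gen K w I' =
      monomial ((w I + w I').mapDomain some + Finsupp.single none 2) 1 := by
    intro I I'
    unfold gen
    have h2 : ((w I).mapDomain some + Finsupp.single none 1) +
        ((w I').mapDomain some + Finsupp.single none 1) =
        (w I + w I').mapDomain some + Finsupp.single (none : Option V) 2 := by
      rw [Finsupp.mapDomain_add, show (2 : ℕ) = 1 + 1 from rfl, Finsupp.single_add]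
      exact add_add_add_comm _ _ _ _
    rw [monomial_mul, mul_one, h2]
  rw [Subtype.ext_iff]
  change gen K w I * gen K w I' = gen K w J * gen K w J' ↔ _
  rw [h1, h1, monomial_left_inj one_ne_zero, add_left_inj]
  exact (Finsupp.mapDomain_injective (Option.some_injective _)).eq_iff

theorem isRelation_orderMonomial [Fintype P] (I I' J J' : LowerSet P) :
    IsRelation K orderMonomial I I' J J' ↔ J = I ⊓ I' ∧ J' = I ⊔ I' := by
  classical
  unfold IsRelation
  rw [toRing_mul_eq_iff]
  have hval : ∀ (I : LowerSet P) (p : P), orderMonomial I p = if p ∈ I then 1 else 0 := by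
    intro I p
    unfold orderMonomial
    rw [Finsupp.equivFunOnFinite_symm_apply_apply]
  constructor
  · rintro ⟨hle, h⟩
    have hp : ∀ p, (if p ∈ I then 1 else 0) + (if p ∈ I' then 1 else 0) =
        (if p ∈ J then 1 else 0) + (if p ∈ J' then 1 else 0) := by
      intro p
      have := DFunLike.congr_fun h p
      rwa [Finsupp.add_apply, Finsupp.add_apply, hval, hval, hval, hval] at this
    constructor
    · ext p
      have h1 := hp p
      have h2 : p ∈ J → p ∈ J' := fun hpJ => hle hpJ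
      change p ∈ J ↔ p ∈ I ∧ p ∈ I'
      split_ifs at h1 <;> simp_all
    · ext p
      have h1 := hp p
      have h2 : p ∈ J → p ∈ J' := fun hpJ => hle hpJ
      change p ∈ J' ↔ p ∈ I ∨ p ∈ I'
      split_ifs at h1 <;> simp_all
  · rintro ⟨rfl, rfl⟩
    refine ⟨inf_le_left.trans le_sup_left, ?_⟩
    ext p
    rw [Finsupp.add_apply, Finsupp.add_apply, hval, hval, hval, hval]
    have h1 : p ∈ I ⊓ I' ↔ p ∈ I ∧ p ∈ I' := Iff.rfl
    have h2 : p ∈ I ⊔ I' ↔ p ∈ I ∨ p ∈ I' := Iff.rfl
    by_cases h3 : p ∈ I <;> by_cases h4 : p ∈ I' <;> simp [h1, h2, h3, h4]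

/-- **Main theorem.** Let `P` be a finite disjoint union of chains and `K` a field. Every
compatible ASL `K[Ω]` on the lattice of poset ideals of `P` has exactly the straightening
relations `φ(I) φ(I') = φ(I ∩ I') φ(I ∪ I')`, and hence is identified with the toric ring of the
order polytope of `P`. -/
theorem result (P : Type*) [PartialOrder P] [Fintype P] (hP : IsUnionOfChains P)
    (K : Type*) [Field K] (V : Type*) (w : LowerSet P → V →₀ ℕ) (hw : IsCompatibleASL K w) :
    (∀ I I' J J' : LowerSet P, IsRelation K w I I' J J' ↔ J = I ⊓ I' ∧ J' = I ⊔ I') ∧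
    Identified K w (orderMonomial (P := P)) := by
  classical
  have hinj : Function.Injective w := by
    intro I J h
    apply hw.isASL.injective
    apply Subtype.ext
    change gen K w I = gen K w J
    unfold gen
    rw [h]
  have hstd : ∀ a b c d : LowerSet P, a ≤ b → c ≤ d → w a + w b = w c + w d →
      a = c ∧ b = d := by
    intro a b c d hab hcd h
    rw [← toRing_mul_eq_iff (K := K)] at h
    have hmem : ∀ {a b : LowerSet P}, a ≤ b →
        ∀ x ∈ ({a, b} : Multiset (LowerSet P)), ∀ y ∈ ({a, b} : Multiset (LowerSet P)),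
          x ≤ y ∨ y ≤ x := by
      intro a b hab x hx y hy
      simp only [Multiset.insert_eq_cons, Multiset.mem_cons, Multiset.mem_singleton] at hx hy
      rcases hx with rfl | rfl <;> rcases hy with rfl | rfl
      · exact Or.inl le_rfl
      · exact Or.inl hab
      · exact Or.inr hab
      · exact Or.inl le_rfl
    have h1 : stdMonomial (toRing K w) ⟨{a, b}, hmem hab⟩ =
        stdMonomial (toRing K w) ⟨{c, d}, hmem hcd⟩ := by
      unfold stdMonomial
      simpa using h
    have h2 := hw.isASL.linearIndependent.injective h1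
    have h3 : ({a, b} : Multiset (LowerSet P)) = {c, d} := congrArg Subtype.val h2
    rw [Multiset.insert_eq_cons, Multiset.insert_eq_cons, Multiset.cons_eq_cons] at h3
    rcases h3 with ⟨rfl, h4⟩ | ⟨hne, cs, h4, h5⟩
    · exact ⟨rfl, Multiset.singleton_inj.1 h4⟩
    · have hcs : cs = 0 := by
        have := congrArg Multiset.card h4
        simp at this
        exact this
      rw [hcs] at h4 h5
      have h6 : b = c := Multiset.singleton_inj.1 h4
      have h7 : d = a := Multiset.singleton_inj.1 h5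
      exact absurd (le_antisymm (h6 ▸ hab) (h7 ▸ hcd)) hne
  have hcomp : ∀ u v : LowerSet P, ¬ u ≤ v → ¬ v ≤ u → ∃ J J', J ≤ u ⊓ v ∧ u ⊔ v ≤ J' ∧
      w u + w v = w J + w J' := by
    intro u v h1 h2
    obtain ⟨J, J', h3, h4, h5⟩ := hw.compatible u v h1 h2
    exact ⟨J, J', h3, h4, (toRing_mul_eq_iff w u v J J').1 h5⟩
  have hmod := modularOn_all hP hinj hstd hcomp
  have hrel : ∀ I I' J J' : LowerSet P,
      IsRelation K w I I' J J' ↔ J = I ⊓ I' ∧ J' = I ⊔ I' := by
    intro I I' J J'
    unfold IsRelation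
    rw [toRing_mul_eq_iff]
    constructor
    · rintro ⟨hle, h⟩
      rw [hmod I I'] at h
      obtain ⟨h1, h2⟩ := hstd _ _ _ _ (inf_le_left.trans le_sup_left) hle h
      exact ⟨h1.symm, h2.symm⟩
    · rintro ⟨rfl, rfl⟩
      exact ⟨inf_le_left.trans le_sup_left, hmod I I'⟩
  refine ⟨hrel, fun I I' _ _ J J' => ?_⟩
  rw [hrel, isRelation_orderMonomial]

end Pool.Agent.Results.MP_9c3df6_al.ChainsUnique
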